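import Pool.Agent.Q234.StN
import Pool.Agent.Q234.Idx

/-!
# MP_e3f158_nt: representations of the types `(a_1, 0), …, (a_r, 0)` with a common index, arbitrary sets of indices

Q1 asks, for all `a`, `b`, whether all large even numbers have a representation of type `(a, b)`. Let `a_1, …, a_r`
be arbitrary, and let `J` be ANY set of at least `x / log ^ A x` indices `j` with `ᵃp_j ≤ x`, `a = a_1, …, a_r` (for
instance the set of all these indices, part (2)). Let `M` be the product of the primes up to `y`, where `y` is of the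
order of magnitude `log log x`, so that `M` is a power of `log x`. For almost all vectors `(N_1, …, N_r)` of multiples
of `M` between `x` and `2 x` (or in arbitrary windows of length at least `x / log ^ C x` between `x` and `2 x`) the
numbers `N_1, …, N_r` SIMULTANEOUSLY have representations of the types `(a_1, 0), …, (a_r, 0)` with the same index
`j` of the first primes, for the expected number of elements `j` of `J`. (For `r = 1`: representations of type `(a, 0)`
with an arbitrarily restricted index.)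

Proof: induction over the theorem `Pool.Agent.Y877.SX.step_neg` of the library (arbitrary dense sets of primes), and the
lower bound for the number of the `a`-primes (`Pool.Agent.Y886.UT.dens_exp`).
-/

set_option autoImplicit false

open Finset Filter Topology

namespace Pool.Agent.Results.MP_e3f158_nt.CommonIndex

/-- the `x`-th prime, for `x ≥ 1` -/
noncomputable def pr (x : ℕ) : ℕ := Nat.nth Nat.Prime (x - 1)

/-- the `x`-th `i`-prime, for `x ≥ 1`: the `(i + 1)`-fold iterate of `pr` -/
noncomputable def iPrime (i x : ℕ) : ℕ := pr^[i + 1] x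

/-- `(x, y)` is a representation of `m` of type `(a, b)` -/
def IsRep (a b m x y : ℕ) : Prop :=
  1 ≤ x ∧ 1 ≤ y ∧ iPrime a x + iPrime b y = m ∧ iPrime a x ≠ iPrime b y

/-- The product of `1 - 1/q` over the primes `q ≤ y`. -/
noncomputable def V (y : ℕ) : ℝ := ∏ q ∈ (Icc 1 y).filter Nat.Prime, (1 - 1 / (q : ℝ))

open Classical in
/-- the indices `j` in `J` such that every `N_i` has a representation of type `(a_i, 0)` with first index `j` -/
noncomputable def common {r : ℕ} (a : Fin r → ℕ) (J : Finset ℕ) (N : Fin r → ℕ) : Finset ℕ :=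
  J.filter (fun j => ∀ i, ∃ u : ℕ, IsRep (a i) 0 (N i) j u)

open Classical in
/-- all indices `j` with `ᵃp_j ≤ x` for `a = a_1, …, a_r` -/
noncomputable def indices {r : ℕ} (a : Fin r → ℕ) (x : ℕ) : Finset ℕ :=
  (Icc 1 x).filter (fun j => ∀ i, iPrime (a i) j ≤ x)

lemma pr_prime (x : ℕ) : (pr x).Prime := Nat.prime_nth_prime _

lemma pr_gt {x : ℕ} (hx : 1 ≤ x) : x ≤ pr x ∧ 1 ≤ pr x := by
  have h : x - 1 + 2 ≤ Nat.nth Nat.Prime (x - 1) := Nat.add_two_le_nth_prime _
  unfold pr
  omega

lemma iter_ge (x : ℕ) (hx : 1 ≤ x) : ∀ b : ℕ, x ≤ pr^[b] x := by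
  intro b
  induction b with
  | zero => exact le_rfl
  | succ b ih =>
    rw [Function.iterate_succ_apply']
    exact ih.trans (pr_gt (hx.trans ih)).1

lemma iPrime_prime (a x : ℕ) : (iPrime a x).Prime := by
  unfold iPrime
  rw [Function.iterate_succ_apply']
  exact pr_prime _

lemma iPrime_mono (a b x : ℕ) (hab : a ≤ b) (hx : 1 ≤ x) : iPrime a x ≤ iPrime b x := by
  unfold iPrime
  have h1 : pr^[b + 1] x = pr^[b - a] (pr^[a + 1] x) := by
    rw [← Function.iterate_add_apply]
    congr 1
    omega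
  rw [h1]
  exact iter_ge _ (hx.trans (iter_ge x hx _)) _

lemma pr_injOn {x y : ℕ} (hx : 1 ≤ x) (hy : 1 ≤ y) (h : pr x = pr y) : x = y := by
  unfold pr at h
  have h1 := (Nat.nth_strictMono Nat.infinite_setOfPred_prime).injective h
  omega

lemma iter_inj (b : ℕ) : ∀ x y : ℕ, 1 ≤ x → 1 ≤ y → pr^[b] x = pr^[b] y → x = y := by
  induction b with
  | zero => intro x y _ _ h; exact h
  | succ b ih =>
    intro x y hx hy h
    rw [Function.iterate_succ_apply, Function.iterate_succ_apply] at h
    exact pr_injOn hx hy (ih _ _ (pr_gt hx).2 (pr_gt hy).2 h)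

lemma prime_index {q : ℕ} (hq : q.Prime) : ∃ u : ℕ, 1 ≤ u ∧ iPrime 0 u = q := by
  refine ⟨Nat.primeCounting q, ?_, ?_⟩
  · unfold Nat.primeCounting Nat.primeCounting'
    rw [Nat.count_succ, if_pos hq]
    omega
  · unfold iPrime pr Nat.primeCounting Nat.primeCounting'
    rw [Nat.count_succ, if_pos hq]
    simp only [zero_add, Function.iterate_one, Nat.add_sub_cancel]
    exact Nat.nth_count hq

/-- **Representations of several types with a common index.** (1) For all `a_1, …, a_r`, all `A`, `C` and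
`0 < ε ≤ 1` there is `K₀`, and for every `K₁` an `x₀`, such that for all `x ≥ x₀`, all `y` between `K₀ log log x` and
`K₁ log log x`, `M` the product of the primes `≤ y`, all windows with `x ≤ M g₀ i`, `M (g₀ i + G i) ≤ 2 x`,
`M (G i) ≥ x / log ^ C x` and EVERY set `J` of at least `x / log ^ A x` indices `j ≥ 1` with all `ᵃp_j ≤ x`,
`a = a_1, …, a_r`: for all but at most `ε ∏ G i` of the vectors `g`, `1 ≤ g i ≤ G i`, for at least
`(1 - ε) #J / (V y log x) ^ r` elements `j` of `J` all the numbers `N_i = M (g₀ i + g i)` have a representation of type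
`(a_i, 0)` with the index `j`. (2) The set of all these indices is large enough: it has at least
`x / log ^ (b + 2) x` elements for all large `x`, if all `a_i ≤ b`. -/
theorem result : (∀ (r : ℕ) (a : Fin r → ℕ) (A C : ℕ) (ε : ℝ), 0 < ε → ε ≤ 1 →
    ∃ K₀ : ℕ, ∀ K₁ : ℕ, ∃ x₀ : ℕ, ∀ x : ℕ, x₀ ≤ x →
    ∀ y : ℕ, K₀ * Real.log (Real.log x) ≤ y → y ≤ K₁ * Real.log (Real.log x) →
    ∀ J : Finset ℕ, (∀ j ∈ J, 1 ≤ j ∧ ∀ i, iPrime (a i) j ≤ x) → (x : ℝ) ≤ J.card * Real.log x ^ A →
    ∀ g₀ G : Fin r → ℕ, (∀ i, x ≤ primorial y * g₀ i) → (∀ i, primorial y * (g₀ i + G i) ≤ 2 * x) →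
      (∀ i, (x : ℝ) ≤ primorial y * G i * Real.log x ^ C) →
      (((Fintype.piFinset fun i => Icc 1 (G i)).filter (fun g =>
        ((common a J (fun i => primorial y * (g₀ i + g i))).card : ℝ) <
        (1 - ε) * (J.card / (V y * Real.log x) ^ r))).card : ℝ) ≤ ε * ∏ i, (G i : ℝ)) ∧
    (∀ (r b : ℕ) (a : Fin r → ℕ), (∀ i, a i ≤ b) → ∃ x₀ : ℕ, ∀ x : ℕ, x₀ ≤ x →
      (x : ℝ) ≤ (indices a x).card * Real.log x ^ (b + 2)) := by
  classical
  constructor
  · intro r a A C ε hε hε1
    obtain ⟨K₀, hK₀⟩ := Pool.Agent.Q234.StN.stepN C r (fun _ => 1) (fun _ => Or.inl rfl) A (ε / 2) (by positivity) (by linarith)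
    refine ⟨K₀, fun K₁ => ?_⟩
    obtain ⟨x₀, hx₀⟩ := hK₀ K₁
    obtain ⟨x₁, hx₁⟩ := Pool.Agent.H373R2.T7.ev_log' (A + r) (2 * r / ε)
    obtain ⟨x₂, hx₂⟩ := Pool.Agent.H373R2.T7.ev_L' 1
    refine ⟨max x₀ (max x₁ (max x₂ 1)), fun x hx y hy1 hy2 J hJ hJc g₀ G h0 h1 h2 => ?_⟩
    have b0 : x₀ ≤ x := le_trans (le_max_left _ _) hx
    have b1 : x₁ ≤ x := le_trans (le_trans (le_max_left _ _) (le_max_right _ _)) hx
    have b2 : x₂ ≤ x := le_trans (le_trans (le_trans (le_max_left _ _) (le_max_right _ _)) (le_max_right _ _)) hx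
    have b3 : 1 ≤ x := le_trans (le_trans (le_trans (le_max_right _ _) (le_max_right _ _)) (le_max_right _ _)) hx
    have c1 := hx₁ x b1
    have c2 := hx₂ x b2
    have hinj : ∀ i, Set.InjOn (iPrime (a i)) J := by
      intro i u hu v hv huv
      exact iter_inj _ u v (hJ u hu).1 (hJ v hv).1 huv
    have k := hx₀ x b0 y hy1 hy2 J hJc (fun i j => iPrime (a i) j) hinj
      (fun i j hj => ⟨iPrime_prime _ _, (hJ j hj).2 i⟩) g₀ G (fun i => by rw [pow_one]; exact h0 i)
      (fun i => by rw [pow_one]; exact h1 i) (fun i => by rw [pow_one]; exact h2 i)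
    have hVe : Pool.Agent.H373R2.T7.Vz y = V y := rfl
    have hprod : ∏ _i : Fin r, (Pool.Agent.H373R2.T7.Vz y * (((1 : ℕ) : ℝ) * Real.log x)) = (V y * Real.log x) ^ r := by
      rw [prod_const, card_univ, Fintype.card_fin, hVe, Nat.cast_one, one_mul]
    rw [hprod] at k
    have hV0 : 0 < V y := Pool.Agent.H373R2.T7.Vz_pos y
    have hV1 : V y ≤ 1 := Pool.Agent.H373R2.T7.Vz_le_one y
    obtain ⟨L, hL⟩ : ∃ L, L = Real.log x := ⟨_, rfl⟩
    rw [← hL] at k c1 c2 hJc ⊢
    have hL0 : 0 < L := by linarith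
    have hxr : (1 : ℝ) ≤ x := by exact_mod_cast b3
    have hc0 : (0 : ℝ) ≤ J.card := Nat.cast_nonneg _
    -- few indices are lost for equal summands
    have hlost : (r : ℝ) ≤ ε / 2 * (J.card / (V y * L) ^ r) := by
      have e1 : √(x : ℝ) ≤ x := by
        have e2 : √(x : ℝ) * √(x : ℝ) = x := Real.mul_self_sqrt (by linarith)
        have e3 : 1 ≤ √(x : ℝ) := by rw [← Real.sqrt_one]; exact Real.sqrt_le_sqrt hxr
        nlinarith
      have e4 : 2 * (r : ℝ) / ε * L ^ (A + r) ≤ J.card * L ^ A := (c1.trans e1).trans hJc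
      have e5 : 2 * (r : ℝ) / ε * L ^ r ≤ J.card := by
        rw [pow_add] at e4
        have e6 : 0 < L ^ A := by positivity
        nlinarith
      have e7 : (V y * L) ^ r ≤ L ^ r := by
        apply pow_le_pow_left₀ (by positivity)
        exact mul_le_of_le_one_left hL0.le hV1
      have e8 : 0 < (V y * L) ^ r := by positivity
      rw [← div_le_iff₀' (by positivity), le_div_iff₀ e8]
      calc (r : ℝ) / (ε / 2) * (V y * L) ^ r ≤ r / (ε / 2) * L ^ r := by
            apply mul_le_mul_of_nonneg_left e7 (by positivity)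
        _ = 2 * (r : ℝ) / ε * L ^ r := by field_simp
        _ ≤ _ := e5
    have hG0 : (0 : ℝ) ≤ ∏ i, (G i : ℝ) := prod_nonneg fun i _ => Nat.cast_nonneg _
    refine le_trans ?_ (k.trans (mul_le_mul_of_nonneg_right (by linarith) hG0))
    apply Nat.cast_le.2
    apply card_le_card
    intro g hg
    rw [mem_filter] at hg ⊢
    refine ⟨hg.1, ?_⟩
    have hcmp : ((J.filter (fun j => ∀ i, (primorial y * (g₀ i + g i) - iPrime (a i) j ^ 1).Prime)).card : ℝ) ≤
        ((common a J (fun i => primorial y * (g₀ i + g i))).card : ℝ) + r := by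
      have hsub : J.filter (fun j => ∀ i, (primorial y * (g₀ i + g i) - iPrime (a i) j ^ 1).Prime) ⊆
          common a J (fun i => primorial y * (g₀ i + g i)) ∪
          (univ : Finset (Fin r)).biUnion (fun i => J.filter (fun j => 2 * iPrime (a i) j = primorial y * (g₀ i + g i))) := by
        intro j hj
        rw [mem_filter] at hj
        rw [mem_union]
        by_cases hex : ∃ i, 2 * iPrime (a i) j = primorial y * (g₀ i + g i)
        · right
          obtain ⟨i, hi⟩ := hex
          rw [mem_biUnion]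
          exact ⟨i, mem_univ _, mem_filter.2 ⟨hj.1, hi⟩⟩
        · left
          push Not at hex
          unfold common
          rw [mem_filter]
          refine ⟨hj.1, fun i => ?_⟩
          have hp := hj.2 i
          rw [pow_one] at hp
          obtain ⟨u, hu1, hu2⟩ := prime_index hp
          have hne := hex i
          have hpos := hp.pos
          refine ⟨u, (hJ j hj.1).1, hu1, ?_, ?_⟩
          · show iPrime (a i) j + iPrime 0 u = primorial y * (g₀ i + g i)
            rw [hu2]
            omega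
          · rw [hu2]
            omega
      have h5 := (card_le_card hsub).trans (card_union_le _ _)
      have h6 : ((univ : Finset (Fin r)).biUnion (fun i => J.filter (fun j => 2 * iPrime (a i) j = primorial y * (g₀ i + g i)))).card ≤ r := by
        refine card_biUnion_le.trans ?_
        calc ∑ i : Fin r, (J.filter (fun j => 2 * iPrime (a i) j = primorial y * (g₀ i + g i))).card ≤ ∑ _i : Fin r, 1 := by
              apply sum_le_sum
              intro i _
              apply card_le_one.2
              intro u hu v hv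
              rw [mem_filter] at hu hv
              exact hinj i hu.1 hv.1 (by have := hu.2.trans hv.2.symm; omega)
          _ = r := by simp
      have h7 := h5.trans (Nat.add_le_add_left h6 _)
      exact_mod_cast h7
    have hlt := hg.2
    have e9 : (1 - ε / 2) * ((J.card : ℝ) / (V y * L) ^ r) = (1 - ε) * (J.card / (V y * L) ^ r) + ε / 2 * (J.card / (V y * L) ^ r) := by ring
    rw [e9]
    linarith
  · intro r b a hab
    obtain ⟨K, hK, hmany⟩ := Pool.Agent.Q234.Idx.many 1 one_pos
    have tN : Tendsto (fun N : ℕ => (N : ℝ)) atTop atTop := tendsto_natCast_atTop_atTop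
    have tL : Tendsto (fun N : ℕ => Real.log (N : ℝ)) atTop atTop := Real.tendsto_log_atTop.comp tN
    have hlo := (isLittleO_log_rpow_atTop (r := (1 : ℝ)) one_pos).bound (show (0 : ℝ) < 1 / (4 * ((b : ℝ) + 1)) by positivity)
    obtain ⟨x₀, hx₀⟩ := eventually_atTop.1 ((hmany.and (tL.eventually hlo)).and
      (tL.eventually_ge_atTop (max 1 (K ^ (b + 1)))))
    refine ⟨x₀, fun x hx => ?_⟩
    obtain ⟨⟨h1, h2⟩, h3⟩ := hx₀ x hx
    obtain ⟨L, hL⟩ : ∃ L, L = Real.log (x : ℝ) := ⟨_, rfl⟩
    rw [← hL] at h1 h2 h3 ⊢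
    have hL1 : 1 ≤ L := (le_max_left _ _).trans h3
    have hLK : K ^ (b + 1) ≤ L := (le_max_right _ _).trans h3
    rw [Real.norm_eq_abs, Real.norm_eq_abs, Real.rpow_one, abs_of_nonneg (by linarith : (0 : ℝ) ≤ L),
      abs_of_nonneg (Real.log_nonneg hL1)] at h2
    have h4 : ((b : ℝ) + 1) * Real.log L ≤ min 1 1 / 4 * L := by
      rw [min_self]
      calc ((b : ℝ) + 1) * Real.log L ≤ ((b : ℝ) + 1) * (1 / (4 * ((b : ℝ) + 1)) * L) :=
            mul_le_mul_of_nonneg_left h2 (by positivity)
        _ = _ := by field_simp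
    obtain ⟨S, hS1, hS2, hS3, -⟩ := h1 b h4
    have hcard : S.card ≤ (indices a x).card := by
      have hS : S ⊆ (indices a x).image (iPrime b) := by
        intro p hp
        obtain ⟨u, hu, hu2⟩ := Pool.Agent.TH665.GP.exists_index (hS2 p hp)
        have hu1 : 1 ≤ u := hu
        have hu3 : iPrime b u = p := hu2
        have hpX := (mem_Icc.1 (hS1 hp)).2
        rw [mem_image]
        refine ⟨u, ?_, hu3⟩
        unfold indices
        rw [mem_filter, mem_Icc]
        have hux : u ≤ iPrime b u := iter_ge u hu1 (b + 1)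
        refine ⟨⟨hu1, (hux.trans hu3.le).trans hpX⟩, fun i => ?_⟩
        exact ((iPrime_mono (a i) b u (hab i) hu1).trans hu3.le).trans hpX
      exact (card_le_card hS).trans card_image_le
    have hcr : (S.card : ℝ) ≤ (indices a x).card := by exact_mod_cast hcard
    have hS0 : (0 : ℝ) ≤ S.card := Nat.cast_nonneg _
    have h5 : (K * L) ^ (b + 1) ≤ L ^ (b + 2) := by
      rw [mul_pow]
      calc K ^ (b + 1) * L ^ (b + 1) ≤ L * L ^ (b + 1) := mul_le_mul_of_nonneg_right hLK (by positivity)
        _ = L ^ (b + 2) := by rw [pow_succ' L (b + 1)]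
    calc (x : ℝ) ≤ (K * L) ^ (b + 1) * S.card := hS3
      _ ≤ L ^ (b + 2) * (indices a x).card := mul_le_mul h5 hcr hS0 (by positivity)
      _ = _ := by ring

end Pool.Agent.Results.MP_e3f158_nt.CommonIndex
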