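import Pool.Agent.Q331.E3.APA
import Pool.Agent.Q331.Dyad
import Pool.Agent.Y854.GM.Win

/-!
# MP_e3f158_nt: EVERY number in long windows is a sum of an `a`-prime and an almost prime, for all types `(a, 0)` at once

Let `v ≥ 1` be a sequence with exponent of convergence at most `τ` (for `v n = n ^ b` this is `1 / b`, for `v n = b ^ n`
or `n!` it is `0`) and `θ < 1`. For all `α > 0` outside a set of Hausdorff dimension at most `τ / (1 - θ)` and all but
finitely many `n` EVERY integer `N` with `|N - α v n| ≤ (v n) ^ θ` has the following property, for ALL `a` with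
`f₂ (a, 0) ≤ N`: `N = p + m s` for a positive proportion of all `a`-primes `p`, where all prime factors of `m` are
`< N ^ ε` and `s` has at most two prime factors, which are `> N ^ (1 / 8)`.

From Mathlib: `Nat.nth Nat.Prime i`: the prime number with `i` smaller primes; `dimH`: the Hausdorff dimension;
`s.primeFactorsList`: the list of the prime factors with multiplicity. The bound for the number of the exceptional `N` is
the theorem of helper234 (`Pool.Agent.Q331.E3` is a copy of the file `APrimePlusAlmostPrime`); the theorem on the windows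
is from the starting files (`Pool.Agent.Y854.GM.win_nat`).
-/

set_option autoImplicit false

open Finset Filter Topology

namespace Pool.Agent.Results.MP_e3f158_nt.EveryNumberInWindows

/-- the `x`-th prime, for `x ≥ 1` -/
noncomputable def pr (x : ℕ) : ℕ := Nat.nth Nat.Prime (x - 1)

/-- the `x`-th `i`-prime, for `x ≥ 1`: the `(i + 1)`-fold iterate of `pr` -/
noncomputable def iPrime (i x : ℕ) : ℕ := pr^[i + 1] x

/-- the function `f₂` of the question -/
noncomputable def f₂ (a b : ℕ) : ℝ :=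
  if a = b then
    (if a = 0 then (2 : ℝ) ^ (((a : ℝ) + 1) * (b + 1) * (a + b + 2))
      else (2 : ℝ) ^ (((a : ℝ) + 1) ^ 2 * (2 * a + 3) / a - 2 * a))
  else (2 : ℝ) ^ (((a : ℝ) + 1) * (b + 1) * (a + b + 2) - (a + b - 2))

open Classical in
/-- the set of the `a`-primes up to `X` -/
noncomputable def aPrimes (a X : ℕ) : Finset ℕ :=
  (Icc 1 X).filter (fun p => ∃ u : ℕ, 1 ≤ u ∧ iPrime a u = p)

/-- `N = p + m s`, where all prime factors of `m` are `< N ^ ε` and `s` has at most two prime factors (counted with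
multiplicity), all of them `> N ^ (1 / 8)` -/
def Represents (ε : ℝ) (N p : ℕ) : Prop :=
  ∃ m s : ℕ, 0 < m ∧ 0 < s ∧ p + m * s = N ∧
    (∀ l : ℕ, l.Prime → l ∣ m → (l : ℝ) < (N : ℝ) ^ ε) ∧
    s.primeFactorsList.length ≤ 2 ∧ ∀ q ∈ s.primeFactors, (N : ℝ) ^ (1 / 8 : ℝ) < q

open Classical in
/-- For ALL `a` with `f₂ (a, 0) ≤ N`: the number of the `a`-primes `p` with `N = p + m s` as above is at least the
proportion `c` of the number of all `a`-primes up to `N / 2`. -/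
def Good (ε c : ℝ) (N : ℕ) : Prop :=
  ∀ a : ℕ, f₂ a 0 ≤ N → c * (aPrimes a (N / 2)).card ≤ ((aPrimes a N).filter (Represents ε N)).card

/-- the exponent of convergence of the sequence `v` is at most `τ` -/
def ExponentOfConvergence (v : ℕ → ℝ) (τ : ℝ) : Prop := ∀ t : ℝ, τ < t → Summable (fun n : ℕ => (v n) ^ (-t))

lemma mono {a X Y : ℕ} (h : X ≤ Y) : aPrimes a X ⊆ aPrimes a Y := by
  classical
  intro p hp
  unfold aPrimes at hp ⊢
  rw [mem_filter, mem_Icc] at hp ⊢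
  exact ⟨⟨hp.1.1, hp.1.2.trans h⟩, hp.2⟩

/-- at the scale `X`: the exceptional numbers in `(X, 2 X]` -/
lemma scale (ε : ℝ) (hε : 0 < ε) : ∃ c : ℝ, 0 < c ∧ ∀ ε' : ℝ, 0 < ε' → ∀ᶠ X : ℕ in atTop,
    (Set.ncard {N : ℕ | X < N ∧ N ≤ 2 * X ∧ ¬ Good ε c N} : ℝ) ≤ (X : ℝ) ^ ε' := by
  classical
  obtain ⟨c, C, K, η, hc, -, -, -, h⟩ := Pool.Agent.Q331.E3.result ε hε
  refine ⟨c, hc, fun ε' hε' => ?_⟩
  have tN : Tendsto (fun N : ℕ => (N : ℝ)) atTop atTop := tendsto_natCast_atTop_atTop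
  have tL : Tendsto (fun N : ℕ => Real.log (N : ℝ)) atTop atTop := Real.tendsto_log_atTop.comp tN
  have tS : Tendsto (fun N : ℕ => √(Real.log (N : ℝ))) atTop atTop := Real.tendsto_sqrt_atTop.comp tL
  have hev : ∀ᶠ t : ℝ in atTop, 1 ≤ t ∧ 10 * Real.log t ≤ ε' * t := by
    have h1 := Real.isLittleO_log_id_atTop.bound (show (0 : ℝ) < ε' / 10 by positivity)
    filter_upwards [h1, eventually_ge_atTop 1] with t h1 h2
    rw [Real.norm_of_nonneg (Real.log_nonneg h2)] at h1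
    simp only [id] at h1
    rw [Real.norm_of_nonneg (by linarith)] at h1
    exact ⟨h2, by linarith⟩
  filter_upwards [h, tS.eventually hev, eventually_ge_atTop 256] with X h1 h2 hX
  obtain ⟨h2, h3⟩ := h2
  have hXr : (256 : ℝ) ≤ X := by exact_mod_cast hX
  have hX0 : (0 : ℝ) < X := by linarith
  have hsub : {N : ℕ | X < N ∧ N ≤ 2 * X ∧ ¬ Good ε c N} ⊆ {N : ℕ | X < N ∧ N ≤ 2 * X ∧
      ¬ ∀ a : ℕ, Pool.Agent.Q331.E3.f₂ a 0 ≤ N →
        c * (Pool.Agent.Q331.E3.aPrimes a X).card ≤ (Pool.Agent.Q331.E3.reps ε a X N : ℝ)} := by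
    rintro N ⟨h4, h5, h6⟩
    refine ⟨h4, h5, fun h7 => h6 fun a ha => ?_⟩
    have h8 := h7 a ha
    have hN0 : (0 : ℝ) < N := by exact_mod_cast (by omega : 0 < N)
    have hXN : (X : ℝ) ≤ N := by exact_mod_cast h4.le
    have e1 : ∀ Y, Pool.Agent.Q331.E3.aPrimes a Y = aPrimes a Y := fun Y => rfl
    have h9 : c * ((aPrimes a (N / 2)).card : ℝ) ≤ c * ((aPrimes a X).card : ℝ) := by
      apply mul_le_mul_of_nonneg_left _ hc.le
      exact_mod_cast card_le_card (mono (by omega))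
    rw [e1] at h8
    refine h9.trans (h8.trans ?_)
    unfold Pool.Agent.Q331.E3.reps
    rw [e1]
    apply Nat.cast_le.2
    apply card_le_card
    intro p hp
    rw [mem_filter] at hp ⊢
    obtain ⟨hp1, m, s, hm, hs, hpm, hm2, hs2, hs3⟩ := hp
    refine ⟨mono h4.le hp1, m, s, hm, hs, hpm, fun l hl hlm => (hm2 l hl hlm).trans_le ?_, hs2, fun q hq => ?_⟩
    · exact Real.rpow_le_rpow hX0.le hXN hε.le
    · refine lt_of_le_of_lt ?_ (hs3 q hq)
      have h10 : (N : ℝ) ≤ 2 * X := by exact_mod_cast h5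
      calc (N : ℝ) ^ (1 / 8 : ℝ) ≤ (2 * X : ℝ) ^ (1 / 8 : ℝ) := Real.rpow_le_rpow hN0.le h10 (by norm_num)
        _ = (2 : ℝ) ^ (1 / 8 : ℝ) * (X : ℝ) ^ (1 / 8 : ℝ) := Real.mul_rpow (by norm_num) hX0.le
        _ ≤ (X : ℝ) ^ (1 / 56 : ℝ) * (X : ℝ) ^ (1 / 8 : ℝ) := by
            apply mul_le_mul_of_nonneg_right _ (by positivity)
            calc (2 : ℝ) ^ (1 / 8 : ℝ) = ((2 : ℝ) ^ (7 : ℝ)) ^ (1 / 56 : ℝ) := by
                  rw [← Real.rpow_mul (by norm_num)]
                  norm_num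
              _ ≤ (X : ℝ) ^ (1 / 56 : ℝ) := by
                  apply Real.rpow_le_rpow (by positivity) _ (by norm_num)
                  have : (2 : ℝ) ^ (7 : ℝ) = 128 := by norm_num
                  linarith
        _ = (X : ℝ) ^ (1 / 7 : ℝ) := by
            rw [← Real.rpow_add hX0]
            norm_num
  have hfin : {N : ℕ | X < N ∧ N ≤ 2 * X ∧
      ¬ ∀ a : ℕ, Pool.Agent.Q331.E3.f₂ a 0 ≤ N →
        c * (Pool.Agent.Q331.E3.aPrimes a X).card ≤ (Pool.Agent.Q331.E3.reps ε a X N : ℝ)}.Finite :=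
    (Set.finite_Ioc X (2 * X)).subset fun N hN => ⟨hN.1, hN.2.1⟩
  have h4 : (Set.ncard {N : ℕ | X < N ∧ N ≤ 2 * X ∧ ¬ Good ε c N} : ℝ) ≤
      Real.exp (5 * (√(Real.log X) * Real.log (Real.log X))) :=
    le_trans (by exact_mod_cast Set.ncard_le_ncard hsub hfin) h1.2
  refine h4.trans ?_
  obtain ⟨t, ht⟩ : ∃ t, t = √(Real.log (X : ℝ)) := ⟨_, rfl⟩
  have hlog : 0 ≤ Real.log (X : ℝ) := Real.log_nonneg (by linarith)
  have hlt : Real.log (X : ℝ) = t ^ 2 := by rw [ht, Real.sq_sqrt hlog]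
  rw [← ht] at h2 h3 ⊢
  rw [Real.rpow_def_of_pos hX0, hlt, Real.log_pow]
  apply Real.exp_le_exp.2
  push_cast
  nlinarith

open Classical in
/-- Let `ε > 0`. There is `c > 0` with the following property. Let `v` be a sequence of real numbers `≥ 1` with exponent of
convergence at most `τ` and `θ < 1`. There is a set `E` of real numbers of Hausdorff dimension at most `τ / (1 - θ)` such
that for all `α > 0` outside `E` and all but finitely many `n` EVERY natural number `N` with `|N - α v n| ≤ (v n) ^ θ` is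
such that for ALL `a` with `f₂ (a, 0) ≤ N` the number of the `a`-primes `p` with `N = p + m s`, where all prime factors of
`m` are `< N ^ ε` and `s` has at most two prime factors, all `> N ^ (1 / 8)`, is at least the proportion `c` of the number
of all `a`-primes up to `N / 2`. -/
theorem result (ε : ℝ) (hε : 0 < ε) : ∃ c : ℝ, 0 < c ∧ ∀ (v : ℕ → ℝ) (τ θ : ℝ), (∀ n, 1 ≤ v n) → 0 ≤ τ →
    ExponentOfConvergence v τ → θ < 1 → ∃ E : Set ℝ, dimH E ≤ ENNReal.ofReal (τ / (1 - θ)) ∧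
      ∀ α : ℝ, 0 < α → α ∉ E → ∃ n0 : ℕ, ∀ n : ℕ, n0 ≤ n → ∀ N : ℕ, |(N : ℝ) - α * v n| ≤ (v n) ^ θ → Good ε c N := by
  obtain ⟨c, hc, hscale⟩ := scale ε hε
  refine ⟨c, hc, fun v τ θ hv hτ hvτ hθ => ?_⟩
  obtain ⟨E, hE, h⟩ := Pool.Agent.Y854.GM.win_nat {N : ℕ | ¬ Good ε c N} (s := 0) (θ := θ) hv hτ hvτ le_rfl hθ (by
    intro ε' hε'
    obtain ⟨X₀, hX₀⟩ := (hscale ε' hε').exists_forall_of_atTop
    obtain ⟨C', hC'⟩ := Pool.Agent.Q331.Dyad.cum {N : ℕ | ¬ Good ε c N} ε' hε' 1 X₀ (by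
      intro j hj
      have h1 := hX₀ (2 ^ j) (hj.trans (Nat.lt_two_pow_self).le)
      rw [one_mul]
      refine le_trans (le_of_eq ?_) (h1.trans (le_of_eq (by push_cast; rfl)))
      have e : {N : ℕ | 2 ^ j < N ∧ N ≤ 2 * 2 ^ j ∧ ¬ Good ε c N} =
          (((Ioc (2 ^ j) (2 * 2 ^ j)).filter (fun t => t ∈ {N : ℕ | ¬ Good ε c N}) : Finset ℕ) : Set ℕ) := by
        ext N
        rw [mem_coe, mem_filter, mem_Ioc]
        exact ⟨fun h => ⟨⟨h.1, h.2.1⟩, h.2.2⟩, fun h => ⟨h.1.1, h.1.2, h.2⟩⟩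
      rw [e, Set.ncard_coe_finset]
      congr!)
    refine ⟨C', fun X hX => ?_⟩
    rw [zero_add]
    exact hC' X hX)
  rw [zero_add] at hE
  refine ⟨E, hE, fun α hα hαE => ?_⟩
  obtain ⟨n0, hn0⟩ := h α hα hαE
  exact ⟨n0, fun n hn N hN => not_not.1 (hn0 n hn N hN).2⟩

end Pool.Agent.Results.MP_e3f158_nt.EveryNumberInWindows
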