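import Pool.Agent.Q26.IX.It

/-!
# Simultaneous representations of ALL types `(a, 0)` for the integers near almost all elements of structured sets

A representation of the type `(a, 0)` of `N` is an index `x` for which `N - ^a p_x` is prime. We consider `s` integers `N 1, ..., N s`
in windows of radius `log ^ R X` around `c i + κ i v i`, where `v i` is an element of a structured set (the palindromes with a
given number of digits, or a non-sparse automatic set), and an arbitrary set `I` of indices. For almost all vectors `v` and ALL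
integers in the windows the number of the common indices `x` in `I` is determined, for ALL vectors of types at once.

Definitions from `Pool.Agent.Q26.IX.K`: `Kind`, `Kind.IsSet` (structured sets at the scale `X`), `pal`, `aut`.
-/

set_option autoImplicit false

namespace Pool.Agent.Results.MP_e3f158_nt.StructuredNumbersAllTypes

open Finset
open Pool.Agent.Q26.IX (Kind)

/-- `pr x` is the `x`-th prime, `pr 1 = 2`. -/
noncomputable def pr (x : ℕ) : ℕ := Nat.nth Nat.Prime (x - 1)

/-- The `x`-th `a`-prime: the `(a + 1)`-fold iterate of `pr` at `x`. -/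
noncomputable def iPrime (a x : ℕ) : ℕ := pr^[a + 1] x

open Classical in
/-- The `x ≥ 1` in `I` for which all the `x`-th `a i`-primes are at most `X`. -/
noncomputable def indices {s : ℕ} (X : ℕ) (I : Set ℕ) (a : Fin s → ℕ) : Finset ℕ :=
  (Icc 1 X).filter fun x => x ∈ I ∧ ∀ i, iPrime (a i) x ≤ X

open Classical in
/-- The number of the `x` in `indices X I a` for which all `N i - ^{a i} p_x` are prime. -/
noncomputable def primes {s : ℕ} (X : ℕ) (I : Set ℕ) (a : Fin s → ℕ) (N : Fin s → ℤ) : ℕ :=
  ((indices X I a).filter fun x => ∀ i, ∃ q : ℕ, q.Prime ∧ (q : ℤ) = N i - iPrime (a i) x).card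

/-- The integer `x` is positive and has no prime factor up to `z`. -/
def Rough (z : ℕ) (x : ℤ) : Prop := 1 ≤ x ∧ ∀ r : ℕ, r.Prime → r ≤ z → ¬ (r : ℤ) ∣ x

open Classical in
/-- The number of the `x` in `indices X I a` for which all `N i - ^{a i} p_x` are positive without prime factor up to `z`. -/
noncomputable def rough {s : ℕ} (X : ℕ) (I : Set ℕ) (a : Fin s → ℕ) (z : ℕ) (N : Fin s → ℤ) : ℕ :=
  ((indices X I a).filter fun x => ∀ i, Rough z (N i - iPrime (a i) x)).card

/-- `V(z) = ∏_{r ≤ z} (1 - 1 / r)`, `r` prime -/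
noncomputable def V (z : ℕ) : ℝ := ∏ r ∈ (Icc 1 z).filter Nat.Prime, (1 - 1 / (r : ℝ))

/-- The number of the `x` with `s` primes is `T = rough / (V(z) log X) ^ s` up to `ε T + X / log ^ A X`. -/
def Formula {s : ℕ} (ε : ℝ) (A X z : ℕ) (I : Set ℕ) (a : Fin s → ℕ) (N : Fin s → ℤ) : Prop :=
  |(primes X I a N : ℝ) - rough X I a z N / (V z * Real.log X) ^ s| ≤
    ε * (rough X I a z N / (V z * Real.log X) ^ s) + X / Real.log X ^ A

open Classical in
/-- **All types `(a, 0)` and common indices, for all integers near almost all elements of structured sets.** Let `s ≥ 1`, `s` kinds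
of structured sets, integers `κ i ≠ 0`, and `B ≥ 1`, `R`, `A`, `U` be given. There is `B₀` such that for all `E` and `ε > 0`, all
large `X`, all `z` between `log ^ B₀ X` and `log ^ E X`, all sets `S i` of these kinds at the scale `X`, all integers `c i` with
`|c i| ≤ B X` and EVERY set `I` of indices the following holds for all vectors `v` in the product of the `S i`, with the
exception of at most a proportion `1 / log ^ U X` of them: for ALL vectors `a` of non-negative integers and ALL integers `N i`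
with `|N i - (c i + κ i v i)| ≤ log ^ R X` the formula holds for the number of the `x` in `I` for which all `N i - ^{a i} p_x` are
prime (and all `^{a i} p_x` are at most `X`). -/
theorem result (s : ℕ) (hs : 1 ≤ s) (kd : Fin s → Kind) (κ : Fin s → ℤ) (hκ : ∀ i, κ i ≠ 0) (B R A U : ℕ) (hB : 1 ≤ B) :
    ∃ B₀ : ℕ, ∀ (E : ℕ) (ε : ℝ), 0 < ε → ∃ X₀ : ℕ, ∀ X, X₀ ≤ X → ∀ z : ℕ, Real.log X ^ B₀ ≤ z → (z : ℝ) ≤ Real.log X ^ E →
      ∀ S : Fin s → Finset ℕ, (∀ i, (kd i).IsSet B X (S i)) → ∀ c : Fin s → ℤ, (∀ i, |c i| ≤ (B : ℤ) * X) → ∀ I : Set ℕ,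
      (((Fintype.piFinset S).filter fun v => ¬ ∀ (a : Fin s → ℕ) (N : Fin s → ℤ),
         (∀ i, ((|N i - (c i + κ i * (v i : ℤ))| : ℤ) : ℝ) ≤ Real.log X ^ R) → Formula ε A X z I a N).card : ℝ) ≤
      ((Fintype.piFinset S).card : ℝ) / Real.log X ^ U := by
  obtain ⟨B₀, h0⟩ := Pool.Agent.Q26.IX.ix_kinds s hs κ hκ kd B R A (U + 2 * s) hB
  obtain ⟨X₁, ht⟩ := Pool.Agent.Q26.IX.types_card s
  refine ⟨B₀, fun E ε hε => ?_⟩
  obtain ⟨X₀, h1⟩ := h0 E ε hε
  refine ⟨X₀ + X₁ + 3, fun X hX z hz1 hz2 S hS c hc I => ?_⟩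
  obtain ⟨τ, hτ⟩ : ∃ τ : Finset (Fin s → ℕ), τ = Fintype.piFinset fun _ : Fin s => range (Nat.log 2 X + 1) := ⟨_, rfl⟩
  have hτc : (τ.card : ℝ) ≤ Real.log X ^ (2 * s) := by rw [hτ]; exact ht X (by omega)
  obtain ⟨bad, hbad⟩ : ∃ bad : (Fin s → ℕ) → (Fin s → ℕ) → Prop, bad = fun a v => ¬ ∀ N : Fin s → ℤ,
         (∀ i, ((|N i - (c i + κ i * (v i : ℤ))| : ℤ) : ℝ) ≤ Real.log X ^ R) → Formula ε A X z I a N := ⟨_, rfl⟩
  have hone : ∀ a : Fin s → ℕ, (((Fintype.piFinset S).filter fun v => bad a v).card : ℝ) ≤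
      ((Fintype.piFinset S).card : ℝ) / Real.log X ^ (U + 2 * s) := by
    intro a
    have h2 := h1 X (by omega) z hz1 hz2 S hS c hc (indices X I a) (fun _ => -1) (fun i x => iPrime (a i) x) (fun _ => Or.inr rfl) (by
      intro i x hx
      unfold indices at hx
      rw [mem_filter, mem_Icc] at hx
      exact ⟨Pool.Agent.Q26.IX.it_pos _ x hx.1.1, hx.2.2 i⟩) (by
      intro i x hx y hy hxy
      have hx' : x ∈ indices X I a := hx
      have hy' : y ∈ indices X I a := hy
      unfold indices at hx' hy'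
      rw [mem_filter, mem_Icc] at hx' hy'
      exact Pool.Agent.Q26.IX.it_inj _ x y hx'.1.1 hy'.1.1 hxy)
    refine le_trans ?_ h2
    apply Nat.cast_le.2
    apply card_le_card
    intro v hv
    rw [mem_filter] at hv ⊢
    refine ⟨hv.1, fun hall => ?_⟩
    have hv2 := hv.2
    rw [hbad] at hv2
    apply hv2
    intro N hN
    have h3 := hall N hN
    have e1 : Pool.Agent.Q26.IX.prm (indices X I a) (fun _ : Fin s => -1) (fun (i : Fin s) x => iPrime (a i) x) N = primes X I a N := by
      unfold Pool.Agent.Q26.IX.prm primes Pool.Agent.Q26.IX.IsP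
      apply congrArg card
      ext x
      simp only [mem_filter]
      simp [neg_add_eq_sub]
    have e2 : Pool.Agent.Q26.IX.rgh (indices X I a) z (fun _ : Fin s => -1) (fun (i : Fin s) x => iPrime (a i) x) N = rough X I a z N := by
      unfold Pool.Agent.Q26.IX.rgh rough Pool.Agent.Q26.IX.IsR Rough
      apply congrArg card
      ext x
      simp only [mem_filter]
      simp [neg_add_eq_sub]
    rw [e1, e2] at h3
    exact h3
  have hbad0 : ∀ a, a ∉ τ → ∀ v, ¬ bad a v := by
    intro a ha v hv
    rw [hbad] at hv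
    apply hv
    intro N _
    have hem : indices X I a = ∅ := by
      unfold indices
      rw [filter_eq_empty_iff]
      rintro x hx ⟨-, hall⟩
      apply ha
      rw [hτ, Fintype.mem_piFinset]
      intro i
      rw [mem_range]
      have h4 : 2 ^ a i + 1 ≤ iPrime (a i) x := Pool.Agent.Q26.IX.it_ge (a i) x
      have h5 := hall i
      have h6 : 2 ^ a i ≤ X := le_trans (Nat.le_succ _) (h4.trans h5)
      have h7 := Nat.le_log_of_pow_le (by norm_num : 1 < 2) h6
      exact Nat.lt_succ_of_le h7
    have e3 : primes X I a N = 0 := by unfold primes; rw [hem, filter_empty, card_empty]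
    have e4 : rough X I a z N = 0 := by unfold rough; rw [hem, filter_empty, card_empty]
    unfold Formula
    rw [e3, e4]
    simp only [Nat.cast_zero, zero_div, sub_zero, abs_zero, mul_zero, zero_add]
    exact div_nonneg (Nat.cast_nonneg _) (pow_nonneg (Real.log_natCast_nonneg _) _)
  have hsub : (Fintype.piFinset S).filter (fun v => ¬ ∀ (a : Fin s → ℕ) (N : Fin s → ℤ),
         (∀ i, ((|N i - (c i + κ i * (v i : ℤ))| : ℤ) : ℝ) ≤ Real.log X ^ R) → Formula ε A X z I a N) ⊆
      τ.biUnion fun a => (Fintype.piFinset S).filter fun v => bad a v := by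
    intro v hv
    rw [mem_filter] at hv
    obtain ⟨hv1, hv2⟩ := hv
    rw [mem_biUnion]
    have h5 : ∃ a, bad a v := by
      by_contra hcon
      push Not at hcon
      apply hv2
      intro a
      have h6 := hcon a
      rw [hbad] at h6
      exact not_not.1 h6
    obtain ⟨a, ha⟩ := h5
    refine ⟨a, ?_, mem_filter.2 ⟨hv1, ha⟩⟩
    by_contra haτ
    exact hbad0 a haτ v ha
  have hL : 0 < Real.log (X : ℝ) := Real.log_pos (by exact_mod_cast (by omega : 1 < X))
  calc (((Fintype.piFinset S).filter fun v => ¬ ∀ (a : Fin s → ℕ) (N : Fin s → ℤ),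
         (∀ i, ((|N i - (c i + κ i * (v i : ℤ))| : ℤ) : ℝ) ≤ Real.log X ^ R) → Formula ε A X z I a N).card : ℝ)
      ≤ ((τ.biUnion fun a => (Fintype.piFinset S).filter fun v => bad a v).card : ℝ) := by exact_mod_cast card_le_card hsub
    _ ≤ ∑ a ∈ τ, (((Fintype.piFinset S).filter fun v => bad a v).card : ℝ) := by exact_mod_cast card_biUnion_le
    _ ≤ ∑ _a ∈ τ, ((Fintype.piFinset S).card : ℝ) / Real.log X ^ (U + 2 * s) := sum_le_sum fun a _ => hone a
    _ = (τ.card : ℝ) * (((Fintype.piFinset S).card : ℝ) / Real.log X ^ (U + 2 * s)) := by rw [sum_const, nsmul_eq_mul]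
    _ ≤ Real.log X ^ (2 * s) * (((Fintype.piFinset S).card : ℝ) / Real.log X ^ (U + 2 * s)) :=
        mul_le_mul_of_nonneg_right hτc (by positivity)
    _ = ((Fintype.piFinset S).card : ℝ) / Real.log X ^ U := by
        rw [pow_add]
        field_simp

end Pool.Agent.Results.MP_e3f158_nt.StructuredNumbersAllTypes
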